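import Pool.Agent.helper34.AC.Spec4

set_option autoImplicit false

open Filter Topology

namespace Pool.Agent.helper34.AC

/-- The sum of the degrees. -/
theorem GRA_sum {V : Type} [DecidableEq V] (G : SimpleGraph V) (U : Finset V) :
    ep G U = ∑ v ∈ U, dg G U v := by
  classical
  unfold ep dg
  rw [Finset.card_filter, Finset.sum_product]
  refine Finset.sum_congr rfl fun v _ => ?_
  rw [Finset.card_filter]

theorem GRA_equiv {α β : Type} [Fintype α] [Fintype β] (h : Fintype.card α = Fintype.card β)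
    (p : α → Prop) (q : β → Prop) [DecidablePred p] [DecidablePred q]
    (hpq : Fintype.card {x // p x} = Fintype.card {x // q x}) :
    ∃ e : α ≃ β, ∀ x, q (e x) ↔ p x := by
  have h2 : Fintype.card {x // ¬ p x} = Fintype.card {x // ¬ q x} := by
    rw [Fintype.card_subtype_compl, Fintype.card_subtype_compl, h, hpq]
  let e1 : {x // p x} ≃ {x // q x} := Fintype.equivOfCardEq hpq
  let e2 : {x // ¬ p x} ≃ {x // ¬ q x} := Fintype.equivOfCardEq h2
  refine ⟨(Equiv.sumCompl p).symm.trans ((Equiv.sumCongr e1 e2).trans (Equiv.sumCompl q)), ?_⟩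
  intro x
  by_cases hx : p x
  · simp only [Equiv.trans_apply, Equiv.sumCompl_symm_apply_of_pos hx, Equiv.sumCongr_apply,
      Sum.map_inl, Equiv.sumCompl_apply_inl, hx, iff_true]
    exact (e1 ⟨x, hx⟩).2
  · simp only [Equiv.trans_apply, Equiv.sumCompl_symm_apply_of_neg hx, Equiv.sumCongr_apply,
      Sum.map_inr, Equiv.sumCompl_apply_inr, hx, iff_false]
    exact (e2 ⟨x, hx⟩).2

/-- Colourability of a vertex set. -/
def GRA_col {V : Type} (G : SimpleGraph V) (k : ℕ) (H : Finset V) : Prop :=
  ∃ f : V → Fin k, ∀ x ∈ H, ∀ y ∈ H, G.Adj x y → f x ≠ f y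

theorem GRA_ext {V : Type} [DecidableEq V] (G : SimpleGraph V) (k : ℕ) (H : Finset V) (v : V)
    (hcol : GRA_col G k (H.erase v)) (hd : dg G H v < k) : GRA_col G k H := by
  classical
  obtain ⟨f, hf⟩ := hcol
  have hcard : ((H.filter (fun u => G.Adj v u)).image f).card < (Finset.univ : Finset (Fin k)).card := by
    rw [Finset.card_univ, Fintype.card_fin]
    refine lt_of_le_of_lt Finset.card_image_le ?_
    unfold dg at hd
    exact lt_of_eq_of_lt (by congr) hd
  obtain ⟨c, -, hc⟩ := Finset.exists_mem_notMem_of_card_lt_card hcard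
  have hc' : ∀ y ∈ H, G.Adj v y → f y ≠ c := by
    intro y hy hvy hfc
    apply hc
    rw [Finset.mem_image]
    exact ⟨y, Finset.mem_filter.2 ⟨hy, hvy⟩, hfc⟩
  refine ⟨Function.update f v c, ?_⟩
  intro x hx y hy hxy
  by_cases h1 : x = v
  · subst h1
    have h2 : y ≠ x := fun h => G.loopless.irrefl x (h ▸ hxy)
    rw [Function.update_self, Function.update_of_ne h2]
    exact (hc' y hy hxy).symm
  · by_cases h2 : y = v
    · subst h2
      rw [Function.update_self, Function.update_of_ne h1]
      exact hc' x hx hxy.symm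
    · rw [Function.update_of_ne h1, Function.update_of_ne h2]
      exact hf x (Finset.mem_erase.2 ⟨h1, hx⟩) y (Finset.mem_erase.2 ⟨h2, hy⟩) hxy

theorem GRA_small {V : Type} [Fintype V] [DecidableEq V] (G : SimpleGraph V) (r : ℕ) (hr : r ≤ 1)
    (h0 : ep G Finset.univ = 0) : Nonempty (G ≃g KU (Fintype.card V) r) := by
  classical
  have hno : ∀ x y : V, ¬ G.Adj x y := by
    intro x y hxy
    unfold ep at h0
    rw [Finset.card_eq_zero] at h0
    have : (x, y) ∈ (Finset.univ ×ˢ Finset.univ : Finset (V × V)).filter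
        (fun p => G.Adj p.1 p.2) := by
      simp [hxy]
    rw [Finset.eq_empty_iff_forall_notMem] at h0
    exact h0 (x, y) (by simpa using hxy)
  refine ⟨⟨Fintype.equivFin V, ?_⟩⟩
  intro a b
  constructor
  · intro h
    obtain ⟨h1, h2, h3⟩ := h
    exact absurd (Fin.ext (by omega)) h1
  · intro h
    exact absurd h (hno a b)

theorem GRA (hE : EPC_stmt) : GRA_stmt := by
  classical
  intro V _ _ G r hr
  obtain ⟨-, -, hmono, -, -⟩ := hE V G Finset.univ
  rcases Nat.lt_or_ge r 2 with hr2 | hr2
  · have h0 : r * (r - 1) = 0 := by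
      interval_cases r <;> rfl
    rw [h0]
    exact ⟨Nat.zero_le _, fun h => GRA_small G r (by omega) h⟩
  -- r ≥ 2
  obtain ⟨k, rfl⟩ : ∃ k, r = k + 1 := ⟨r - 1, by omega⟩
  have hk : 1 ≤ k := by omega
  have hnc : ¬ GRA_col G k Finset.univ := by
    rintro ⟨f, hf⟩
    have hcol : G.Colorable k := ⟨SimpleGraph.Coloring.mk f (fun {x y} hxy =>
      hf x (Finset.mem_univ _) y (Finset.mem_univ _) hxy)⟩
    have := hcol.chromaticNumber_le
    have h3 : ((k + 1 : ℕ) : ℕ∞) ≤ (k : ℕ∞) := hr.trans this
    have h4 : k + 1 ≤ k := by exact_mod_cast h3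
    omega
  let F : Finset (Finset V) := Finset.univ.filter (fun H => ¬ GRA_col G k H)
  have hF : F.Nonempty := ⟨Finset.univ, by simp [F, hnc]⟩
  obtain ⟨H, hHF, hmin⟩ := Finset.exists_min_image F Finset.card hF
  have hH : ¬ GRA_col G k H := (Finset.mem_filter.1 hHF).2
  have hdeg : ∀ v ∈ H, k ≤ dg G H v := by
    intro v hv
    by_contra hlt
    push Not at hlt
    apply hH
    refine GRA_ext G k H v ?_ hlt
    by_contra hnot
    have := hmin (H.erase v) (Finset.mem_filter.2 ⟨Finset.mem_univ _, hnot⟩)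
    have h5 := Finset.card_erase_lt_of_mem hv
    omega
  have hdle : ∀ v ∈ H, H.filter (fun u => G.Adj v u) ⊆ H.erase v := by
    intro v hv u hu
    rw [Finset.mem_filter] at hu
    refine Finset.mem_erase.2 ⟨?_, hu.1⟩
    rintro rfl
    exact G.loopless.irrefl _ hu.2
  have hdg : ∀ v, dg G H v = (H.filter (fun u => G.Adj v u)).card := by
    intro v
    unfold dg
    congr
  have hne : H.Nonempty := by
    by_contra hemp
    rw [Finset.not_nonempty_iff_eq_empty] at hemp
    apply hH
    refine ⟨fun _ => ⟨0, hk⟩, ?_⟩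
    intro x hx
    rw [hemp] at hx
    exact absurd hx (Finset.notMem_empty _)
  have hcardH : k + 1 ≤ H.card := by
    obtain ⟨v, hv⟩ := hne
    have h6 := hdeg v hv
    rw [hdg] at h6
    have h7 := Finset.card_le_card (hdle v hv)
    rw [Finset.card_erase_of_mem hv] at h7
    have h8 : 0 < H.card := Finset.card_pos.2 ⟨v, hv⟩
    omega
  have hsum : H.card * k ≤ ep G H := by
    rw [GRA_sum]
    calc H.card * k = ∑ _v ∈ H, k := by rw [Finset.sum_const, smul_eq_mul]
      _ ≤ ∑ v ∈ H, dg G H v := Finset.sum_le_sum hdeg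
  have hep : ep G H ≤ ep G Finset.univ := hmono H (Finset.subset_univ _)
  have hmul : (k + 1) * k ≤ H.card * k := Nat.mul_le_mul_right k hcardH
  have hsimp : (k + 1) * (k + 1 - 1) = (k + 1) * k := by rw [Nat.add_sub_cancel]
  rw [hsimp]
  refine ⟨hmul.trans (hsum.trans hep), ?_⟩
  intro heq
  have e1 : H.card * k = (k + 1) * k := le_antisymm (by omega) hmul
  have e2 : H.card = k + 1 := Nat.eq_of_mul_eq_mul_right (by omega) e1
  have e3 : ep G H = ep G Finset.univ := by omega
  have hclique : ∀ v ∈ H, ∀ u ∈ H, u ≠ v → G.Adj v u := by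
    intro v hv u hu huv
    have h9 : H.filter (fun u => G.Adj v u) = H.erase v := by
      refine Finset.eq_of_subset_of_card_le (hdle v hv) ?_
      rw [Finset.card_erase_of_mem hv, e2, ← hdg]
      simpa using hdeg v hv
    have : u ∈ H.filter (fun u => G.Adj v u) := by
      rw [h9]
      exact Finset.mem_erase.2 ⟨huv, hu⟩
    exact (Finset.mem_filter.1 this).2
  have hin : ∀ x y, G.Adj x y → x ∈ H ∧ y ∈ H := by
    intro x y hxy
    unfold ep at e3
    have hsub : (H ×ˢ H).filter (fun p => G.Adj p.1 p.2) ⊆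
        (Finset.univ ×ˢ Finset.univ).filter (fun p : V × V => G.Adj p.1 p.2) := by
      intro p hp
      rw [Finset.mem_filter] at hp ⊢
      exact ⟨Finset.mem_product.2 ⟨Finset.mem_univ _, Finset.mem_univ _⟩, hp.2⟩
    have h10 := Finset.eq_of_subset_of_card_le hsub e3.ge
    have h11 : (x, y) ∈ (Finset.univ ×ˢ Finset.univ).filter (fun p : V × V => G.Adj p.1 p.2) := by
      rw [Finset.mem_filter]
      exact ⟨Finset.mem_product.2 ⟨Finset.mem_univ _, Finset.mem_univ _⟩, hxy⟩
    rw [← h10, Finset.mem_filter, Finset.mem_product] at h11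
    exact h11.1
  have hn : k + 1 ≤ Fintype.card V := by
    rw [← e2]
    exact Finset.card_le_univ H
  obtain ⟨e, he⟩ := GRA_equiv (α := V) (β := Fin (Fintype.card V))
    (by rw [Fintype.card_fin]) (fun x => x ∈ H) (fun i => i.1 < k + 1) (by
      rw [Fintype.card_coe, e2, Fintype.card_subtype]
      have : (Finset.univ.filter (fun i : Fin (Fintype.card V) => i.1 < k + 1)).card =
          (Finset.range (k + 1)).card := by
        refine Finset.card_bij (fun i _ => i.1) ?_ ?_ ?_
        · intro i hi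
          exact Finset.mem_range.2 (Finset.mem_filter.1 hi).2
        · intro i _ j _ hij
          exact Fin.ext hij
        · intro b hb
          have hb' := Finset.mem_range.1 hb
          exact ⟨⟨b, by omega⟩, Finset.mem_filter.2 ⟨Finset.mem_univ _, hb'⟩, rfl⟩
      rw [this, Finset.card_range])
  refine ⟨⟨e, ?_⟩⟩
  intro a b
  constructor
  · intro h
    obtain ⟨h1, h2, h3⟩ := h
    have h1' : b ≠ a := fun h => h1 (by rw [h])
    exact hclique a ((he a).1 h2) b ((he b).1 h3) h1'
  · intro h
    obtain ⟨h2, h3⟩ := hin a b h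
    refine ⟨?_, (he a).2 h2, (he b).2 h3⟩
    intro h4
    have : a = b := e.injective h4
    subst this
    exact G.loopless.irrefl _ h

end Pool.Agent.helper34.AC
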